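import Pool.Agent.H65.HX.SStm
import Pool.Agent.H31.HW.SLm

/-!
# Project HX, scheme side: parts TTB and LAM
-/

set_option autoImplicit false
open Classical Finset

namespace Pool.Agent.H31.HX.S

open Pool.Agent.H39.HW (sm Av ln blk lab)
open Pool.Agent.H65.HX Pool.Agent.H65.HX.Sc

/-! ### numerical facts -/

theorem h_pos {x : Prm} (hx : Par x) : (1000:ℝ) ≤ x.h := by exact_mod_cast hx.h1

theorem L_pos {x : Prm} (hx : Par x) : (1:ℝ) ≤ x.L := by
  have h1 := hx.h1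
  have : 1 ≤ x.L := by
    rw [hx.L1]
    nlinarith
  exact_mod_cast this

theorem mu_small {x : Prm} (hx : Par x) : 10 ^ 20 * (x.L : ℝ) * x.μ ≤ x.η * x.θ := by
  have hL := L_pos hx
  have hu := hx.u1
  have hm := hx.m0
  have h4 : (x.L:ℝ) ≤ (x.L:ℝ) ^ 4 := by
    calc (x.L:ℝ) = (x.L:ℝ) ^ 1 := (pow_one _).symm
      _ ≤ (x.L:ℝ) ^ 4 := pow_le_pow_right₀ hL (by norm_num)
  have : 10 ^ 20 * (x.L:ℝ) * x.μ ≤ 10 ^ 20 * (x.L:ℝ) ^ 4 * x.μ := by
    apply mul_le_mul_of_nonneg_right _ hm.le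
    linarith
  linarith

theorem n0_small {x : Prm} (hx : Par x) : 10 ^ 15 * (x.L:ℝ) * (x.n0 * x.μ) ≤ 1 := by
  have h1 := hx.V1
  have hL := L_pos hx
  have hh := h_pos hx
  have h2 : (0:ℝ) ≤ x.n0 * x.μ := mul_nonneg (Nat.cast_nonneg _) hx.m0.le
  have h3 : (0:ℝ) ≤ (x.L:ℝ) * (x.n0 * x.μ) := by positivity
  nlinarith

theorem eta_small {x : Prm} (hx : Par x) : 10 ^ 20 * (x.L:ℝ) * x.η ≤ 1 := by
  have h1 := n0_small hx
  have h2 := hx.V2
  have hL := L_pos hx
  have h3 : (x.L:ℝ) * (10 ^ 6 * x.η) ≤ (x.L:ℝ) * (x.n0 * x.μ) :=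
    mul_le_mul_of_nonneg_left h2 (by linarith)
  nlinarith

theorem eta_small' {x : Prm} (hx : Par x) : 10 ^ 20 * x.η ≤ 1 := by
  have h1 := eta_small hx
  have hL := L_pos hx
  have := hx.n1
  nlinarith

/-- `40 μ` is negligible compared with `n0 μ θ` -/
theorem n0_big {x : Prm} (hx : Par x) : 10 ^ 6 * x.μ ≤ x.n0 * x.μ * x.θ := by
  have h1 := mu_small hx
  have h2 := hx.V2
  have hL := L_pos hx
  have hm := hx.m0
  have h3 : 10 ^ 6 * x.η * x.θ ≤ x.n0 * x.μ * x.θ := mul_le_mul_of_nonneg_right h2 hx.t0.le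
  nlinarith

/-! ### the identity -/

theorem gA_split (x : Prm) (l : ℝ) {a : ℕ} (ha : a ∉ x.R0) (β : ℕ) :
    x.gA l a β = x.gA 0 a β + (if β ∈ x.mid ∧ x.adj a β then l else 0) := by
  have hm : β ∈ x.mid ↔ x.b0 ≤ β ∧ β < x.b1 := by
    unfold Prm.mid
    rw [Finset.mem_Ico]
  unfold Prm.gA
  rw [if_neg ha, if_neg ha]
  by_cases hc : β ∈ x.mid ∧ x.adj a β
  · rw [if_pos hc]
    obtain ⟨h1, h2⟩ := hc
    rw [hm] at h1
    rw [if_neg (by omega), if_neg (by omega), if_pos h2, if_neg (by omega),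
      if_neg (by omega), if_pos h2]
    ring
  · rw [if_neg hc, add_zero]
    by_cases h1 : β < x.b0
    · rw [if_pos h1, if_pos h1]
    by_cases h2 : x.b1 ≤ β
    · rw [if_neg h1, if_pos h2, if_neg h1, if_pos h2]
    rw [if_neg h1, if_neg h2, if_neg h1, if_neg h2]
    have h3 : ¬ x.adj a β := fun h3 => hc ⟨hm.mpr ⟨by omega, by omega⟩, h3⟩
    rw [if_neg h3, if_neg h3]

theorem key (x : Prm) {a : ℕ} (ha : a ∉ x.R0) (h0 : x.DJ a ≠ 0) :
    ∑ β ∈ x.cls a, x.gA (x.lam a) a β * x.dem a β = x.Dt a / 2 := by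
  have h1 : ∑ β ∈ x.cls a, x.gA (x.lam a) a β * x.dem a β =
      ∑ β ∈ x.cls a, x.gA 0 a β * x.dem a β + x.lam a * x.DJ a := by
    unfold Prm.DJ Prm.Fx
    rw [Finset.mul_sum, Finset.sum_filter, ← Finset.sum_add_distrib]
    apply Finset.sum_congr rfl
    intro β _
    rw [gA_split x _ ha]
    split_ifs <;> ring
  rw [h1]
  have h2 : x.lam a * x.DJ a = x.Dt a / 2 - ∑ β ∈ x.cls a, x.gA 0 a β * x.dem a β := by
    unfold Prm.lam
    field_simp
  linarith

theorem DJ_pos {x : Prm} (hx : Par x) (hDJN : S_DJN) {a : ℕ} (ha : a ∈ x.R) (ha0 : a ∉ x.R0) :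
    3 / 10 * x.θ ≤ x.DJ a := by
  have h := (hDJN x hx a ha ha0).1
  have hL := L_pos hx
  have he := eta_small' hx
  have ht := hx.t0
  have h1 : 1 / (100 * (x.L:ℝ)) ≤ 1 / 100 := by
    rw [div_le_div_iff₀ (by positivity) (by norm_num)]
    linarith
  have h2 : 3 / 10 * x.θ ≤ (2 / 5 - 3 * x.η - 1 / (100 * x.L)) * x.θ :=
    mul_le_mul_of_nonneg_right (by linarith) ht.le
  linarith

theorem DJ_ne {x : Prm} (hx : Par x) (hDJN : S_DJN) {a : ℕ} (ha : a ∈ x.R) (ha0 : a ∉ x.R0) :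
    x.DJ a ≠ 0 := by
  have h := DJ_pos hx hDJN ha ha0
  have ht := hx.t0
  have : 0 < x.DJ a := by linarith
  exact this.ne'

theorem Tt_true (x : Prm) (a : ℕ) :
    x.Tt true a = ∑ β ∈ x.cls a, x.gA (x.lam a) a β * x.dem a β := by
  unfold Prm.Tt Prm.fr
  simp

theorem Tt_false (x : Prm) (a : ℕ) :
    x.Tt false a = x.Dt a - ∑ β ∈ x.cls a, x.gA (x.lam a) a β * x.dem a β := by
  unfold Prm.Tt Prm.fr Prm.Dt
  rw [← Finset.sum_sub_distrib]
  apply Finset.sum_congr rfl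
  intro β _
  simp only [Bool.false_eq_true, if_false]
  ring

theorem Tt_rigid (x : Prm) {a : ℕ} (ha : a ∈ x.R0) (hc : a ∉ x.cls a) :
    x.Tt false a = x.DL a ∧ x.Tt true a = x.Dt a - x.DL a := by
  have h1 : x.Tt false a = x.DL a := by
    unfold Prm.Tt Prm.fr Prm.DL
    rw [Finset.sum_filter]
    apply Finset.sum_congr rfl
    intro β hβ
    have hne : β ≠ a := fun e => hc (e ▸ hβ)
    unfold Prm.gA
    simp only [Bool.false_eq_true, if_false]
    rw [if_pos ha]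
    by_cases h : a < β
    · rw [if_pos h, if_neg (by omega)]
      ring
    · rw [if_neg h, if_pos (by omega)]
      ring
  refine ⟨h1, ?_⟩
  have h2 := Tt_false x a
  rw [h1] at h2
  rw [Tt_true]
  linarith

theorem t_TTB (hTOT : S_TOT) (hCEN : S_CEN) (hDJN : S_DJN) (hSRB : S_SRB) (hCLD : S_CLD) :
    S_TTB := by
  intro x hx a ha τ
  have hL := L_pos hx
  have hL0 : (0:ℝ) < x.L := by linarith
  have ht := hx.t0
  have hn := hx.n1
  have hm := hx.m0
  have hηθ := mul_pos hn ht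
  have hmu := mu_small hx
  have hT := abs_le.mp (hTOT x hx a ha).1
  have hD := abs_le.mp (hTOT x hx a ha).2
  have hS := (hSRB x hx a ha).2.2
  have s1 := (hS true).1
  have s2 := (hS true).2.1
  have s3 := (hS false).1
  have s4 := (hS false).2.1
  have s5 := abs_le.mp (hS true).2.2.1
  have s6 := abs_le.mp (hS false).2.2.1
  simp only [Bool.not_true, Bool.not_false] at s5 s6
  -- sizes of the errors
  set iL : ℝ := x.θ / x.L with hiL
  have hiL0 : 0 < iL := div_pos ht hL0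
  have f1 : x.θ / (200 * x.L) = iL / 200 := by rw [hiL]; field_simp
  have f2 : x.θ / (119 * x.L) = iL / 119 := by rw [hiL]; field_simp
  have f3 : x.η * x.θ / (100 * x.L) = x.η * iL / 100 := by rw [hiL]; field_simp
  have f4 : x.η * x.θ / (50 * x.L) = x.η * iL / 50 := by rw [hiL]; field_simp
  have f5 : (1 / 2 - 1 / (100 * x.L)) * x.θ = x.θ / 2 - iL / 100 := by rw [hiL]; field_simp
  have f6 : 10 ^ 20 * x.μ ≤ x.η * iL := by
    have : x.η * iL = x.η * x.θ / x.L := by rw [hiL]; ring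
    rw [this, le_div_iff₀ hL0]
    linarith
  have f7 : x.η * iL ≤ iL / 10 ^ 20 := by
    have := eta_small' hx
    have : x.η * iL ≤ 1 / 10 ^ 20 * iL := by
      apply mul_le_mul_of_nonneg_right _ hiL0.le
      linarith
    linarith
  have f8 : x.n0 * x.μ * x.θ ≤ iL / 10 ^ 15 := by
    have h1 := n0_small hx
    rw [hiL, div_div, le_div_iff₀ (by positivity)]
    have h2 : (10 ^ 15 * (x.L:ℝ) * (x.n0 * x.μ)) * x.θ ≤ 1 * x.θ :=
      mul_le_mul_of_nonneg_right h1 ht.le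
    linarith
  have f9 : 0 ≤ x.n0 * x.μ * x.θ := by
    have : (0:ℝ) ≤ x.n0 := Nat.cast_nonneg _
    positivity
  have f10 := n0_big hx
  rw [f1] at s1 s3
  rw [f2] at s2 s4
  rw [f3] at s5 s6
  rw [f4, f5]
  by_cases ha0 : a ∈ x.R0
  · have hR := Tt_rigid x ha0 (hCLD x hx a ha).2.2.1
    have hC := abs_le.mp ((hCEN x hx a ha).2 ha0)
    refine ⟨?_, ?_, fun h => absurd ha0 h, fun _ => ?_, fun _ => hR⟩
    · cases τ
      · rw [hR.1]
        linarith [hD.1, hC.1]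
      · rw [hR.2]
        linarith [hD.2, hC.2, hT.1]
    · cases τ
      · rw [hR.1]
        linarith [hD.2, hC.2]
      · rw [hR.2]
        linarith [hD.1, hC.1, hT.2]
    · rw [abs_le]
      cases τ
      · rw [hR.1]
        constructor
        · linarith [hD.1, hC.1]
        · linarith [hD.2, hC.2]
      · rw [hR.2]
        constructor
        · linarith [hD.2, hC.2, hT.1]
        · linarith [hD.1, hC.1, hT.2]
  · have hk := key x ha0 (DJ_ne hx hDJN ha ha0)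
    have hTt : x.Tt τ a = x.Dt a / 2 := by
      cases τ
      · rw [Tt_false, hk]; ring
      · rw [Tt_true, hk]
    rw [hTt]
    refine ⟨?_, ?_, fun _ => ⟨rfl, ?_⟩, fun h => absurd h ha0, fun h => absurd h ha0⟩
    · linarith [hT.1]
    · linarith [hT.2]
    · rw [abs_le]
      cases τ
      · constructor <;> linarith [hT.1, hT.2, s5.1, s5.2]
      · constructor <;> linarith [hT.1, hT.2, s5.1, s5.2]

end Pool.Agent.H31.HX.S
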