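import Pool.Agent.H31.HX.SLam

/-!
# Project HX, scheme side: part LAM
-/

set_option autoImplicit false
open Classical Finset

namespace Pool.Agent.H31.HX.S

open Pool.Agent.H39.HW (sm Av ln blk lab)
open Pool.Agent.H65.HX Pool.Agent.H65.HX.Sc

theorem nonadj_cls {x : Prm} (hx : Par x) (hCLD : S_CLD) (hMMD : S_MMD) {a : ℕ} (ha : a ∈ x.R)
    {β : ℕ} (hB : β < x.B) (hn : ¬ x.adj a β) : β ∈ x.cls a ↔ β ≠ sm x.B a a := by
  constructor
  · intro h
    exact (((hCLD x hx a ha).1 β).mp h).2.2.1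
  · intro h
    exact (hCLD x hx a ha).2.1 ((((hMMD x hx).2 a ha).1 β).mpr ⟨hB, hn, h⟩)

theorem mem_mid (x : Prm) (β : ℕ) : β ∈ x.mid ↔ x.b0 ≤ β ∧ β < x.b1 := by
  unfold Prm.mid
  rw [Finset.mem_Ico]

/-- the sum over an interval of the middle zone -/
theorem sum_mid {x : Prm} (hx : Par x) (hCLD : S_CLD) (hMMD : S_MMD) {a : ℕ}
    (ha : a ∈ x.R) {u v : ℕ} (huv : u ≤ v) (hu : x.b0 ≤ u) (hv : v ≤ x.b1) (P : ℕ → Prop)
    [DecidablePred P]
    (hn : ∀ β, u ≤ β → β < v → ¬ x.adj a β)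
    (hP : ∀ β ∈ x.cls a, P β ↔ u ≤ β ∧ β < v) :
    (((v : ℝ) - u) * x.μ - x.μ) * ((3 / 5 - x.η) * x.θ) ≤ ∑ β ∈ (x.cls a).filter P, x.dem a β ∧
      ∑ β ∈ (x.cls a).filter P, x.dem a β ≤
        (((v : ℝ) - u) * x.μ) * ((3 / 5 + x.η) * x.θ) := by
  have hvB : ∀ β, β < x.b1 → β < x.B := by
    intro β hβ
    unfold Prm.b1 at hβ
    unfold Prm.B
    omega
  have hT : (x.cls a).filter P = (Finset.Ico u v).erase (sm x.B a a) := by
    ext β
    rw [Finset.mem_filter, Finset.mem_erase, Finset.mem_Ico]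
    constructor
    · rintro ⟨h1, h2⟩
      have h3 := (hP β h1).mp h2
      exact ⟨(nonadj_cls hx hCLD hMMD ha (hvB β (by omega)) (hn β h3.1 h3.2)).mp h1, h3⟩
    · rintro ⟨h1, h2⟩
      have h3 := (nonadj_cls hx hCLD hMMD ha (hvB β (by omega)) (hn β h2.1 h2.2)).mpr h1
      exact ⟨h3, (hP β h3).mpr h2⟩
  have hη := eta_small' hx
  have hη0 := hx.n1
  have hm := hx.m0
  have ht := hx.t0
  have h0 : 0 ≤ (3 / 5 - x.η) * x.θ * x.μ :=
    mul_nonneg (mul_nonneg (by linarith) ht.le) hm.le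
  have h0' : 0 ≤ (3 / 5 + x.η) * x.θ * x.μ := by positivity
  have h := Pool.Agent.H31.HW.sum_int (f := x.dem a) (s := sm x.B a a) huv h0 h0'
    (fun β h1 h2 h3 => (hCLD x hx a ha).2.2.2.2.2.2 β
      ((nonadj_cls hx hCLD hMMD ha (hvB β (by omega)) (hn β h1 h2)).mpr h3)
      ((mem_mid x β).mpr ⟨by omega, by omega⟩) (hn β h1 h2))
  rw [hT]
  constructor
  · refine le_trans (le_of_eq ?_) h.1
    ring
  · refine le_trans h.2 (le_of_eq ?_)
    ring

/-- the sum over the classes -/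
theorem split {x : Prm} {a : ℕ} (ha0 : a ∉ x.R0) (l w : ℝ)
    (hw : (if 2 * a < x.B then (1:ℝ) / 4 else 3 / 4) = w) :
    ∑ β ∈ x.cls a, x.gA l a β * x.dem a β =
      ∑ β ∈ (x.cls a).filter (fun β => x.b0 ≤ β ∧ x.b1 ≤ β), x.dem a β + l * x.DJ a +
      w * ∑ β ∈ (x.cls a).filter (fun β => β ∈ x.mid ∧ ¬ x.adj a β), x.dem a β ∧
    x.Dt a = ∑ β ∈ (x.cls a).filter (fun β => β < x.b0), x.dem a β +
      ∑ β ∈ (x.cls a).filter (fun β => x.b0 ≤ β ∧ x.b1 ≤ β), x.dem a β + x.DJ a +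
      ∑ β ∈ (x.cls a).filter (fun β => β ∈ x.mid ∧ ¬ x.adj a β), x.dem a β := by
  unfold Prm.DJ Prm.Fx Prm.Dt
  simp only [Finset.sum_filter, Finset.mul_sum, ← Finset.sum_add_distrib]
  constructor
  · apply Finset.sum_congr rfl
    intro β _
    have hm := mem_mid x β
    unfold Prm.gA
    rw [if_neg ha0]
    by_cases c1 : β < x.b0
    · have n1 : ¬ (x.b0 ≤ β ∧ x.b1 ≤ β) := by omega
      have n2 : ¬ β ∈ x.mid := by rw [hm]; omega
      rw [if_pos c1, if_neg n1, if_neg (fun h => n2 h.1), if_neg (fun h => n2 h.1)]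
      ring
    by_cases c2 : x.b1 ≤ β
    · have n1 : (x.b0 ≤ β ∧ x.b1 ≤ β) := by omega
      have n2 : ¬ β ∈ x.mid := by rw [hm]; omega
      rw [if_neg c1, if_pos c2, if_pos n1, if_neg (fun h => n2 h.1), if_neg (fun h => n2 h.1)]
      ring
    have n1 : ¬ (x.b0 ≤ β ∧ x.b1 ≤ β) := by omega
    have n2 : β ∈ x.mid := by rw [hm]; omega
    by_cases c3 : x.adj a β
    · rw [if_neg c1, if_neg c2, if_pos c3, if_neg n1, if_pos ⟨n2, c3⟩,
        if_neg (fun h => h.2 c3)]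
      ring
    · rw [if_neg c1, if_neg c2, if_neg c3, hw, if_neg n1, if_neg (fun h => c3 h.2),
        if_pos ⟨n2, c3⟩]
      ring
  · apply Finset.sum_congr rfl
    intro β _
    have hm := mem_mid x β
    by_cases c1 : β < x.b0
    · have n1 : ¬ (x.b0 ≤ β ∧ x.b1 ≤ β) := by omega
      have n2 : ¬ β ∈ x.mid := by rw [hm]; omega
      rw [if_pos c1, if_neg n1, if_neg (fun h => n2 h.1), if_neg (fun h => n2 h.1)]
      ring
    by_cases c2 : x.b1 ≤ β
    · have n1 : (x.b0 ≤ β ∧ x.b1 ≤ β) := by omega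
      have n2 : ¬ β ∈ x.mid := by rw [hm]; omega
      rw [if_neg c1, if_pos n1, if_neg (fun h => n2 h.1), if_neg (fun h => n2 h.1)]
      ring
    have n1 : ¬ (x.b0 ≤ β ∧ x.b1 ≤ β) := by omega
    have n2 : β ∈ x.mid := by rw [hm]; omega
    by_cases c3 : x.adj a β
    · rw [if_neg c1, if_neg n1, if_pos ⟨n2, c3⟩, if_neg (fun h => h.2 c3)]
      ring
    · rw [if_neg c1, if_neg n1, if_neg (fun h => c3 h.2), if_pos ⟨n2, c3⟩]
      ring

/-- numbers: `y` is the length of the interval, `X` the distance from the centre -/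
theorem arith {η θ μ n0 X y Q S5 DJ A : ℝ} (hη : 0 < η) (hη1 : 10 ^ 20 * η ≤ 1) (hθ : 0 < θ)
    (hθ1 : θ ≤ 1)
    (hμ : 0 < μ) (hμ1 : 10 ^ 20 * μ ≤ η * θ) (hX0 : n0 ≤ X) (hn0 : 10 ^ 6 * η ≤ n0)
    (hX1 : X ≤ 1 / 2 + 3 * η) (hy : |y - X| ≤ 2 * η)
    (hQ : |Q - 3 / 5 * X * θ| ≤ 6 * η * θ)
    (s5 : (y - 2 * μ) * ((3 / 5 - η) * θ) ≤ S5) (s5' : S5 ≤ y * ((3 / 5 + η) * θ))
    (hDJ : 3 / 10 * θ ≤ DJ) (hA : A * DJ = Q - 3 / 4 * S5) :
    0 ≤ A ∧ A ≤ 1 ∧ |A * DJ - 3 / 20 * X * θ| ≤ 20 * η * θ := by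
  have hηθ : 0 < η * θ := mul_pos hη hθ
  rw [abs_le] at hy hQ
  have hX2 : 0 ≤ X := by linarith
  have e1 : S5 ≤ (3 / 5 * X + 3 * η) * θ := by
    refine le_trans s5' ?_
    have h1 : y * (3 / 5 + η) ≤ 3 / 5 * X + 3 * η := by
      have h2 : y ≤ X + 2 * η := by linarith
      have h3 : y * (3 / 5 + η) ≤ (X + 2 * η) * (3 / 5 + η) :=
        mul_le_mul_of_nonneg_right h2 (by linarith)
      have h4 : X * η ≤ (1 / 2 + 3 * η) * η := mul_le_mul_of_nonneg_right hX1 hη.le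
      have h5 : η * η ≤ 1 / 10 ^ 20 * η := mul_le_mul_of_nonneg_right (by linarith) hη.le
      linarith
    calc y * ((3 / 5 + η) * θ) = (y * (3 / 5 + η)) * θ := by ring
      _ ≤ _ := mul_le_mul_of_nonneg_right h1 hθ.le
  have e2 : (3 / 5 * X - 3 * η) * θ ≤ S5 := by
    refine le_trans ?_ s5
    have h1 : 3 / 5 * X - 3 * η ≤ (y - 2 * μ) * (3 / 5 - η) := by
      have hm : μ ≤ η / 10 := by
        have hth : η * θ ≤ η * 1 := mul_le_mul_of_nonneg_left hθ1 hη.le
        linarith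
      have h2 : X - 3 * η ≤ y - 2 * μ := by linarith
      have h3 : (X - 3 * η) * (3 / 5 - η) ≤ (y - 2 * μ) * (3 / 5 - η) :=
        mul_le_mul_of_nonneg_right h2 (by linarith)
      have h4 : X * η ≤ (1 / 2 + 3 * η) * η := mul_le_mul_of_nonneg_right hX1 hη.le
      have h5 : η * η ≤ 1 / 10 ^ 20 * η := mul_le_mul_of_nonneg_right (by linarith) hη.le
      have h6 : 0 ≤ η * η := by positivity
      linarith
    calc (3 / 5 * X - 3 * η) * θ ≤ ((y - 2 * μ) * (3 / 5 - η)) * θ :=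
          mul_le_mul_of_nonneg_right h1 hθ.le
      _ = _ := by ring
  have k1 : A * DJ ≤ 3 / 20 * X * θ + 9 * η * θ := by rw [hA]; linarith
  have k2 : 3 / 20 * X * θ - 9 * η * θ ≤ A * DJ := by rw [hA]; linarith
  have hDJ0 : 0 < DJ := by linarith
  have k3 : 0 < A * DJ := by
    refine lt_of_lt_of_le ?_ k2
    have : 10 ^ 6 * η * θ ≤ X * θ := mul_le_mul_of_nonneg_right (by linarith) hθ.le
    linarith
  have k4 : A * DJ ≤ 1 * DJ := by
    have : X * θ ≤ (1 / 2 + 3 * η) * θ := mul_le_mul_of_nonneg_right hX1 hθ.le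
    have : η * θ ≤ 1 / 10 ^ 20 * θ := mul_le_mul_of_nonneg_right (by linarith) hθ.le
    linarith
  refine ⟨?_, ?_, ?_⟩
  · by_contra hc
    push Not at hc
    have := mul_neg_of_neg_of_pos hc hDJ0
    linarith
  · exact le_of_mul_le_mul_right k4 hDJ0
  · rw [abs_le]
    constructor <;> linarith

theorem t_LAM (hTOT : S_TOT) (hCEN : S_CEN) (hDJN : S_DJN) (hZON : S_ZON) (hCLD : S_CLD)
    (hSRB : S_SRB) (hMMD : S_MMD) (hAVA : S_AVA) : S_LAM := by
  intro x hx a ha ha0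
  have hk := key x ha0 (DJ_ne hx hDJN ha ha0)
  have hDJ := DJ_pos hx hDJN ha ha0
  have haR := ha
  unfold Prm.R at haR
  rw [Finset.mem_Icc] at haR
  have hcase : 2 * a + 2 * x.n0 < x.B ∨ x.B + 2 * x.n0 < 2 * a := by
    by_contra hc
    push Not at hc
    apply ha0
    unfold Prm.R0
    rw [Finset.mem_filter]
    exact ⟨ha, by omega, by omega⟩
  have hKJ := hx.KJ
  have hJ1 := hx.J1
  have hb0 : x.b0 = x.K + x.J := rfl
  have hb1 : x.b1 = x.K + x.J + x.M := rfl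
  have hB : x.B = 2 * x.K + 2 * x.J + x.M := rfl
  have hL := L_pos hx
  have hL0 : (0:ℝ) < x.L := by linarith
  have ht := hx.t0
  have hn := hx.n1
  have hm := hx.m0
  have hη := eta_small' hx
  have hηθ := mul_pos hn ht
  have hmu : 10 ^ 20 * x.μ ≤ x.η * x.θ := by
    have := mu_small hx
    nlinarith
  have hth : x.θ ≤ 1 := by
    have := hx.th
    linarith
  have hZ := hZON x hx
  have hZa := hZ.2.2.2.2.2 a ha
  have hg := abs_le.mp hZ.2.2.1
  have hj1 := hx.j1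
  have hk1 := abs_le.mp hx.k1
  have hm1 := abs_le.mp hx.m1
  -- `J < g`
  have hJg : x.J + 1 ≤ x.g := by
    have h1 : ((x.J : ℝ) + 1) * x.μ ≤ x.g * x.μ := by
      have : x.μ ≤ 1 / 10 ^ 20 := by nlinarith
      linarith
    have h2 : (x.J : ℝ) + 1 ≤ x.g := le_of_mul_le_mul_right h1 hm
    exact_mod_cast h2
  have hT := abs_le.mp (hTOT x hx a ha).1
  have hD := abs_le.mp (hTOT x hx a ha).2
  have hC := abs_le.mp (hCEN x hx a ha).1
  have hS := (hSRB x hx a ha).2.2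
  have s5 := abs_le.mp (hS true).2.2.1
  simp only [Bool.not_true] at s5
  have s5r : x.η * x.θ / (100 * x.L) ≤ x.η * x.θ / 100 := by
    rw [div_le_div_iff₀ (by positivity) (by norm_num)]
    nlinarith
  have eB : ((x.B : ℕ) : ℝ) = 2 * x.K + 2 * x.J + x.M := by rw [hB]; push_cast; ring
  have eb0 : ((x.b0 : ℕ) : ℝ) = x.K + x.J := by rw [hb0]; push_cast; ring
  have eb1 : ((x.b1 : ℕ) : ℝ) = x.K + x.J + x.M := by rw [hb1]; push_cast; ring
  have haK : ((x.K : ℝ)) * x.μ ≤ (a : ℝ) * x.μ := by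
    have : (x.K : ℝ) ≤ a := by
      have : x.K ≤ a := by omega
      exact_mod_cast this
    exact mul_le_mul_of_nonneg_right this hm.le
  have haK' : (a : ℝ) * x.μ ≤ (x.K + 2 * x.J + x.M) * x.μ := by
    have : (a : ℝ) ≤ x.K + 2 * x.J + x.M := by
      have : a ≤ x.K + 2 * x.J + x.M := by omega
      exact_mod_cast this
    exact mul_le_mul_of_nonneg_right this hm.le
  rcases hcase with hc | hc
  · -- left half
    obtain ⟨z1, z2, z3, z4⟩ := hZa.1 hc
    have h2a : 2 * a < x.B := by omega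
    obtain ⟨g1, g2⟩ := split (a := a) ha0 (x.lam a) (1 / 4) (if_pos h2a)
    rw [hk] at g1
    have hDL : ∑ β ∈ (x.cls a).filter (fun β => β < x.b0), x.dem a β = x.DL a := by
      unfold Prm.DL
      congr 1
      ext β
      rw [Finset.mem_filter, Finset.mem_filter]
      constructor
      · rintro ⟨h1, h2⟩
        refine ⟨h1, ?_⟩
        by_contra hc
        have h3 := ((hCLD x hx a ha).1 β).mp h1
        have hne : β ≠ a := fun e => (hCLD x hx a ha).2.2.1 (e ▸ h1)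
        have h5 := (hAVA x hx a ha β h3.1).2.2.2.1 (by omega) h3.2.1
        omega
      · rintro ⟨h1, h2⟩
        have h3 := ((hCLD x hx a ha).1 β).mp h1
        exact ⟨h1, z4 β h3.1 h2 h3.2.1⟩
    have g5 := sum_mid hx hCLD hMMD ha (u := a + x.K + 1) (v := x.b1) (by omega) (by omega)
      (le_refl _) (fun β => β ∈ x.mid ∧ ¬ x.adj a β) (fun β _ h => by unfold Prm.adj; omega)
      (fun β hβ => by
        have h3 := ((hCLD x hx a ha).1 β).mp hβ
        have h4 := z4 β h3.1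
        rw [mem_mid]
        unfold Prm.adj
        constructor
        · rintro ⟨h5, h6⟩
          refine ⟨?_, h5.2⟩
          by_contra hc
          have h7 : β < a := by omega
          have := h4 h7 h3.2.1
          omega
        · rintro ⟨h5, h6⟩
          omega)
    set S5 := ∑ β ∈ (x.cls a).filter (fun β => β ∈ x.mid ∧ ¬ x.adj a β), x.dem a β
    set S2 := ∑ β ∈ (x.cls a).filter (fun β => x.b0 ≤ β ∧ x.b1 ≤ β), x.dem a β
    rw [hDL] at g2
    have e2 : ((a + x.K + 1 : ℕ) : ℝ) = a + x.K + 1 := by push_cast; ring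
    have hX0 : x.n0 * x.μ ≤ ((x.B : ℝ) / 2 - a) * x.μ := by
      have h1 : ((2 * a + 2 * x.n0 : ℕ) : ℝ) ≤ x.B := by exact_mod_cast hc.le
      push_cast at h1
      exact mul_le_mul_of_nonneg_right (by linarith) hm.le
    have hfin := arith (η := x.η) (θ := x.θ) (μ := x.μ) (n0 := x.n0 * x.μ)
      (X := ((x.B : ℝ) / 2 - a) * x.μ) (y := (x.J + x.M - a) * x.μ) (Q := x.Dt a / 2 - x.DL a)
      (S5 := S5) (DJ := x.DJ a) (A := 1 - x.lam a) hn hη ht hth hm hmu hX0 hx.V2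
      (by rw [eB]; linarith)
      (by rw [eB, abs_le]; constructor <;> linarith)
      (by rw [abs_le]; constructor <;> linarith [hT.1, hT.2, hD.1, hD.2, hC.1, hC.2, s5.1, s5.2])
      (by
        refine le_trans (le_of_eq ?_) g5.1
        rw [eb1, e2]; ring)
      (by
        refine le_trans g5.2 ?_
        rw [eb1, e2]
        have h3 : 0 ≤ (3 / 5 + x.η) * x.θ := by positivity
        apply mul_le_mul_of_nonneg_right _ h3
        linarith)
      hDJ (by linarith [g1, g2])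
    refine ⟨by linarith [hfin.2.1], by linarith [hfin.1], fun _ => hfin.2.2, fun h => ?_⟩
    omega
  · obtain ⟨z1, z2, z3, z4⟩ := hZa.2.1 hc
    have h2a : ¬ 2 * a < x.B := by omega
    obtain ⟨g1, g2⟩ := split (a := a) ha0 (x.lam a) (3 / 4) (if_neg h2a)
    rw [hk] at g1
    have hDL : ∑ β ∈ (x.cls a).filter (fun β => x.b0 ≤ β ∧ x.b1 ≤ β), x.dem a β =
        x.Dt a - x.DL a := by
      have h1 : x.Dt a = x.DL a + ∑ β ∈ (x.cls a).filter (fun β => ¬ β < a), x.dem a β := by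
        unfold Prm.Dt Prm.DL
        exact (Finset.sum_filter_add_sum_filter_not _ _ _).symm
      rw [h1]
      have h2 : (x.cls a).filter (fun β => x.b0 ≤ β ∧ x.b1 ≤ β) =
          (x.cls a).filter (fun β => ¬ β < a) := by
        ext β
        rw [Finset.mem_filter, Finset.mem_filter]
        constructor
        · rintro ⟨h1, h2⟩
          refine ⟨h1, fun h4 => ?_⟩
          have h3 := ((hCLD x hx a ha).1 β).mp h1
          have h5 := (hAVA x hx a ha β h3.1).2.2.2.2.1 (by omega) h3.2.1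
          omega
        · rintro ⟨h1, h2⟩
          have h3 := ((hCLD x hx a ha).1 β).mp h1
          have hne : β ≠ a := fun e => (hCLD x hx a ha).2.2.1 (e ▸ h1)
          have h4 := z4 β h3.1 (by omega) h3.2.1
          exact ⟨h1, by omega, h4⟩
      rw [h2]
      ring
    have g5 := sum_mid hx hCLD hMMD ha (u := x.b0) (v := a - x.K) (by omega) (le_refl _)
      (by omega) (fun β => β ∈ x.mid ∧ ¬ x.adj a β) (fun β _ h => by unfold Prm.adj; omega)
      (fun β hβ => by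
        have h3 := ((hCLD x hx a ha).1 β).mp hβ
        have h4 := z4 β h3.1
        rw [mem_mid]
        unfold Prm.adj
        constructor
        · rintro ⟨h5, h6⟩
          refine ⟨h5.1, ?_⟩
          by_contra hc
          have h7 : a < β := by omega
          have := h4 h7 h3.2.1
          omega
        · rintro ⟨h5, h6⟩
          omega)
    set S5 := ∑ β ∈ (x.cls a).filter (fun β => β ∈ x.mid ∧ ¬ x.adj a β), x.dem a β
    set S2 := ∑ β ∈ (x.cls a).filter (fun β => x.b0 ≤ β ∧ x.b1 ≤ β), x.dem a β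
    have e2 : ((a - x.K : ℕ) : ℝ) = a - x.K := Nat.cast_sub (by omega)
    have hX0 : x.n0 * x.μ ≤ ((a : ℝ) - x.B / 2) * x.μ := by
      have h1 : (x.B : ℝ) + ((2 * x.n0 : ℕ) : ℝ) ≤ ((2 * a : ℕ) : ℝ) := by exact_mod_cast hc.le
      push_cast at h1
      exact mul_le_mul_of_nonneg_right (by linarith) hm.le
    have hfin := arith (η := x.η) (θ := x.θ) (μ := x.μ) (n0 := x.n0 * x.μ)
      (X := ((a : ℝ) - x.B / 2) * x.μ) (y := (a - 2 * x.K - x.J) * x.μ)
      (Q := x.DL a - x.Dt a / 2)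
      (S5 := S5) (DJ := x.DJ a) (A := x.lam a) hn hη ht hth hm hmu hX0 hx.V2
      (by rw [eB]; linarith)
      (by rw [eB, abs_le]; constructor <;> linarith)
      (by rw [abs_le]; constructor <;> linarith [hT.1, hT.2, hD.1, hD.2, hC.1, hC.2, s5.1, s5.2])
      (by
        refine le_trans ?_ g5.1
        rw [eb0, e2]
        have h3 : 0 ≤ (3 / 5 - x.η) * x.θ := mul_nonneg (by linarith) ht.le
        apply mul_le_mul_of_nonneg_right _ h3
        linarith)
      (by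
        refine le_trans g5.2 (le_of_eq ?_)
        rw [eb0, e2]; ring)
      hDJ (by linarith [g1, g2])
    refine ⟨hfin.1, hfin.2.1, fun h => ?_, fun _ => hfin.2.2⟩
    omega

end Pool.Agent.H31.HX.S
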