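import Pool.Agent.H65.HX.GBas

/-!
# Project HX: part XED, existence of the moved edges
-/

set_option autoImplicit false
open Classical Finset

namespace Pool.Agent.H31.HX

open Pool.Agent.H21.HV (nb Prp TotLab)
open Pool.Agent.H39.HW (sm Av ln blk lab Reg)
open Pool.Agent.H65.HW (cell)
open Pool.Agent.H65.HX

/-- a row which is touched by moved edges -/
def Rel (s : Dat) (a : ℕ) : Prop := a ∈ s.R0 ∨ a ∈ s.Y true ∨ a ∈ s.Y false

theorem delta_small {D p : ℕ} {s : Dat} (h : Sch D p s) : 10 ^ 4 * ((s.B : ℝ) + 2) * s.δ ≤ s.μ := by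
  have h1 := h.small
  have h2 := h.rho2
  have h3 := h.rho12
  have h4 := h.opos
  have h5 := omega_pos h
  have hd := h.dpos
  have h6 : s.ρ1 * s.ω ≤ s.ω := by
    have : s.ρ1 ≤ 1 := by linarith
    calc s.ρ1 * s.ω ≤ 1 * s.ω := mul_le_mul_of_nonneg_right this h5.le
      _ = s.ω := one_mul _
  have hm : (1:ℝ) ≤ (s.m : ℝ) + 2 := by
    have : (0:ℝ) ≤ s.m := Nat.cast_nonneg _
    linarith
  have hH : (1:ℝ) ≤ (s.H : ℝ) + 2 := by
    have : (0:ℝ) ≤ s.H := Nat.cast_nonneg _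
    linarith
  have hB : (0:ℝ) ≤ (s.B : ℝ) + 2 := by positivity
  have hmH : (1:ℝ) ≤ ((s.m : ℝ) + 2) * ((s.H : ℝ) + 2) := by nlinarith
  have h7 : 10 ^ 4 * ((s.B : ℝ) + 2) * s.δ ≤
      10 ^ 4 * (s.m + 2) * (s.B + 2) * (s.H + 2) * s.δ := by
    have e : 10 ^ 4 * ((s.m : ℝ) + 2) * (s.B + 2) * (s.H + 2) * s.δ =
      (10 ^ 4 * ((s.B : ℝ) + 2) * s.δ) * (((s.m : ℝ) + 2) * ((s.H : ℝ) + 2)) := by ring
    rw [e]
    have : 0 ≤ 10 ^ 4 * ((s.B : ℝ) + 2) * s.δ := by positivity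
    nlinarith
  linarith

theorem D_pos {V : Type} [Fintype V] {G : SimpleGraph V} {D p : ℕ} {s : Dat} {cl : V → ℕ}
    (h : Ctx G D p s cl) : (0:ℝ) < D := by
  have h1 := h.big
  have h2 : (0:ℝ) < 100 * (s.m + 2) * (s.B + 2) * (s.H + 2) := by positivity
  by_contra hc
  have h3 : (D:ℝ) = 0 := le_antisymm (not_lt.mp hc) (Nat.cast_nonneg D)
  rw [h3, mul_zero] at h1
  linarith

theorem dD_big {V : Type} [Fintype V] {G : SimpleGraph V} {D p : ℕ} {s : Dat} {cl : V → ℕ}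
    (h : Ctx G D p s cl) : 100 * ((s.B : ℝ) + 2) ≤ s.δ * D := by
  have h1 := h.big
  have hm : (1:ℝ) ≤ (s.m : ℝ) + 2 := by
    have : (0:ℝ) ≤ s.m := Nat.cast_nonneg _
    linarith
  have hH : (1:ℝ) ≤ (s.H : ℝ) + 2 := by
    have : (0:ℝ) ≤ s.H := Nat.cast_nonneg _
    linarith
  have hB : (0:ℝ) ≤ (s.B : ℝ) + 2 := by positivity
  have hmH : (1:ℝ) ≤ ((s.m : ℝ) + 2) * ((s.H : ℝ) + 2) := by nlinarith
  have e : (100 : ℝ) * (s.m + 2) * (s.B + 2) * (s.H + 2) =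
      (100 * ((s.B : ℝ) + 2)) * (((s.m : ℝ) + 2) * ((s.H : ℝ) + 2)) := by ring
  rw [e] at h1
  nlinarith

theorem mD_big {V : Type} [Fintype V] {G : SimpleGraph V} {D p : ℕ} {s : Dat} {cl : V → ℕ}
    (h : Ctx G D p s cl) : 10 ^ 6 * ((s.B : ℝ) + 2) ^ 2 ≤ s.μ * D := by
  have h1 := delta_small h.sch
  have h2 := dD_big h
  have hD := D_pos h
  have h3 : 10 ^ 4 * ((s.B : ℝ) + 2) * s.δ * D ≤ s.μ * D := mul_le_mul_of_nonneg_right h1 hD.le
  have h4 : 10 ^ 4 * ((s.B : ℝ) + 2) * (100 * ((s.B : ℝ) + 2)) ≤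
      10 ^ 4 * ((s.B : ℝ) + 2) * (s.δ * D) := mul_le_mul_of_nonneg_left h2 (by positivity)
  nlinarith

/-- both sets are nonempty -/
theorem YZ_pos {D p : ℕ} {s : Dat} (h : Sch D p s) {a : ℕ} (ha : Rel s a) (τ : Bool) :
    (s.Y τ).Nonempty ∧ (s.Z τ).Nonempty := by
  have h1 := h.xe τ a ha
  have h2 : 0 < 20 * ((s.B : ℝ) + 1) * (s.e2 + 20 * s.μ) := by
    have := h.e20
    have := mu_pos h
    positivity
  have h3 : 0 < s.er a * (s.Y τ).card * (s.Z τ).card := lt_of_lt_of_le h2 h1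
  constructor
  · rw [Finset.nonempty_iff_ne_empty]
    intro h0
    rw [h0] at h3
    simp at h3
  · rw [Finset.nonempty_iff_ne_empty]
    intro h0
    rw [h0] at h3
    simp at h3

/-- an upper bound for `lo` -/
theorem lo_le {D p : ℕ} {s : Dat} (h : Sch D p s) (hD : (0:ℝ) < D) {a β : ℕ} (ha : a ∈ s.R)
    (hβ : β ∈ s.cls p a) : s.lo D a β ≤ s.μ / 5 := by
  have h1 := h.sur2 a ha β hβ
  have h2 : s.lo D a β = s.ω * s.kt a β - s.dem D a β := rfl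
  have h3 : s.dem D a β ≤ 3 * s.μ := by
    unfold Dat.dem
    have h4 := h.lnu β (mem_cls.mp hβ).1
    have h5 : (ln s.st β : ℝ) / D ≤ 3 * s.μ := by
      rw [div_le_iff₀ hD]
      exact h4
    have h6 := mu_pos h
    split_ifs <;> linarith
  have h7 : 0 ≤ s.ω * s.kt a β := mul_nonneg (omega_pos h).le (Nat.cast_nonneg _)
  have h8 : s.ρ2 * (s.ω * s.kt a β) ≤ 1 / 16 * (s.ω * s.kt a β) :=
    mul_le_mul_of_nonneg_right h.rho2 h7
  linarith

theorem er_small {D p : ℕ} {s : Dat} (h : Sch D p s) (hD : (0:ℝ) < D) {a : ℕ} (ha : Rel s a) :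
    s.er a ≤ s.μ / 200 := by
  rcases ha with ha | ha | ha
  · obtain ⟨β, hβ⟩ := (YZ_pos h (Or.inl ha) true).2
    have h1 := (h.xc1 true β hβ a ha).1
    have h2 := h.er1 a (h.R0R ha) β h1
    have h3 := lo_le h hD (h.R0R ha) h1
    linarith
  · obtain ⟨β, hβ⟩ := (YZ_pos h (Or.inr (Or.inl ha)) true).2
    have h1 := h.xc2 true β hβ a ha
    have h0 := (h.xY true a ha).1
    have h2 := h.er1 a h0 β h1
    have h3 := lo_le h hD h0 h1
    linarith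
  · obtain ⟨β, hβ⟩ := (YZ_pos h (Or.inr (Or.inr ha)) false).2
    have h1 := h.xc2 false β hβ a ha
    have h0 := (h.xY false a ha).1
    have h2 := h.er1 a h0 β h1
    have h3 := lo_le h hD h0 h1
    linarith

theorem Rel_R {D p : ℕ} {s : Dat} (h : Sch D p s) {a : ℕ} (ha : Rel s a) : a ∈ s.R := by
  rcases ha with ha | ha | ha
  · exact h.R0R ha
  · exact (h.xY true a ha).1
  · exact (h.xY false a ha).1

theorem Rel_Y {s : Dat} {τ : Bool} {b : ℕ} (hb : b ∈ s.Y τ) : Rel s b := by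
  cases τ
  · exact Or.inr (Or.inr hb)
  · exact Or.inr (Or.inl hb)

theorem Y_card {D p : ℕ} {s : Dat} (h : Sch D p s) (τ : Bool) : (s.Y τ).card ≤ s.B := by
  have : s.Y τ ⊆ range s.B := fun b hb => mem_range.mpr (row_lt h (h.xY τ b hb).1)
  simpa using Finset.card_le_card this

theorem Z_lt {D p : ℕ} {s : Dat} (h : Sch D p s) {a : ℕ} (ha : a ∈ s.R0) {τ : Bool} {β : ℕ}
    (hβ : β ∈ s.Z τ) : β < s.B := (mem_cls.mp (h.xc1 τ β hβ a ha).1).1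

theorem Z_card {D p : ℕ} {s : Dat} (h : Sch D p s) {a : ℕ} (ha : a ∈ s.R0) (τ : Bool) :
    (s.Z τ).card ≤ s.B := by
  have : s.Z τ ⊆ range s.B := fun β hβ => mem_range.mpr (Z_lt h ha hβ)
  simpa using Finset.card_le_card this

/-- the number of moved edges of a vertex with given cell and block -/
noncomputable def rnum (D : ℕ) (s : Dat) (τ : Bool) : ℕ :=
  ⌊(s.e2 + 18 * s.μ) * D / ((s.Y τ).card * (s.Z τ).card)⌋₊ + 1

noncomputable def r0 (D : ℕ) (s : Dat) : ℕ := max (rnum D s true) (rnum D s false)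

theorem rnum_bound {V : Type} [Fintype V] {G : SimpleGraph V} {D p : ℕ} {s : Dat} {cl : V → ℕ}
    (h : Ctx G D p s cl) {a0 : ℕ} (ha0 : a0 ∈ s.R0) {a : ℕ} (ha : Rel s a) (τ : Bool) :
    ((s.B : ℝ) + 1) * rnum D s τ ≤ s.er a * D / 20 := by
  have hD := D_pos h
  have hm := mD_big h
  have hmu := mu_pos h.sch
  have he := h.sch.e20
  obtain ⟨hY, hZ⟩ := YZ_pos h.sch ha τ
  have hY1 : (1:ℝ) ≤ (s.Y τ).card := by exact_mod_cast hY.card_pos
  have hZ1 : (1:ℝ) ≤ (s.Z τ).card := by exact_mod_cast hZ.card_pos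
  have hYB : ((s.Y τ).card : ℝ) ≤ s.B := by exact_mod_cast Y_card h.sch τ
  have hZB : ((s.Z τ).card : ℝ) ≤ s.B := by exact_mod_cast Z_card h.sch ha0 τ
  set y : ℝ := ((s.Y τ).card : ℝ) with hy
  set z : ℝ := ((s.Z τ).card : ℝ) with hz
  have hyz : 0 < y * z := by positivity
  have hyzB : y * z ≤ 2 * s.μ * D := by
    have h1 : y * z ≤ (s.B:ℝ) * s.B := mul_le_mul hYB hZB (by linarith) (Nat.cast_nonneg _)
    have hB : (0:ℝ) ≤ s.B := Nat.cast_nonneg _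
    nlinarith
  have h1 : (rnum D s τ : ℝ) ≤ (s.e2 + 20 * s.μ) * D / (y * z) := by
    unfold rnum
    push_cast
    have h2 : (⌊(s.e2 + 18 * s.μ) * D / ((s.Y τ).card * (s.Z τ).card)⌋₊ : ℝ) ≤
        (s.e2 + 18 * s.μ) * D / (y * z) := Nat.floor_le (by positivity)
    have h3 : (1:ℝ) ≤ 2 * s.μ * D / (y * z) := by
      rw [le_div_iff₀ hyz, one_mul]
      exact hyzB
    calc (⌊(s.e2 + 18 * s.μ) * D / ((s.Y τ).card * (s.Z τ).card)⌋₊ : ℝ) + 1
        ≤ (s.e2 + 18 * s.μ) * D / (y * z) + 2 * s.μ * D / (y * z) := add_le_add h2 h3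
      _ = (s.e2 + 20 * s.μ) * D / (y * z) := by ring
  have h2 := h.sch.xe τ a ha
  calc ((s.B : ℝ) + 1) * rnum D s τ ≤ ((s.B : ℝ) + 1) * ((s.e2 + 20 * s.μ) * D / (y * z)) :=
        mul_le_mul_of_nonneg_left h1 (by positivity)
    _ ≤ s.er a * D / 20 := by
        rw [mul_div_assoc', div_le_div_iff₀ hyz (by norm_num)]
        have h3 : (20 * ((s.B : ℝ) + 1) * (s.e2 + 20 * s.μ)) * D ≤ (s.er a * y * z) * D :=
          mul_le_mul_of_nonneg_right h2 hD.le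
        nlinarith

theorem r0_bound {V : Type} [Fintype V] {G : SimpleGraph V} {D p : ℕ} {s : Dat} {cl : V → ℕ}
    (h : Ctx G D p s cl) {a0 : ℕ} (ha0 : a0 ∈ s.R0) {a : ℕ} (ha : Rel s a) :
    ((s.B : ℝ) + 1) * r0 D s ≤ s.er a * D / 20 := by
  unfold r0
  rcases max_cases (rnum D s true) (rnum D s false) with ⟨h1, _⟩ | ⟨h1, _⟩
  · rw [h1]; exact rnum_bound h ha0 ha true
  · rw [h1]; exact rnum_bound h ha0 ha false

/-! ### the choice of the edges -/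

/-- the properties of the graphs `Λ β` for the rows `a ∈ R0` and `b ∈ Y τ` -/
def Good {V : Type} [Fintype V] (G : SimpleGraph V) (D : ℕ) (s : Dat) (cl : V → ℕ)
    (rr : Bool → ℕ → ℕ → ℕ → ℕ) (n : Bool → V → ℕ) (a b : ℕ) (τ : Bool)
    (Λ : ℕ → SimpleGraph V) : Prop :=
  (∀ i, Λ i ≤ G) ∧
  (∀ i u v, (Λ i).Adj u v → i ∈ s.Z τ ∧
    ((u ∈ cell cl a ∧ v ∈ cell cl b) ∨ (u ∈ cell cl b ∧ v ∈ cell cl a))) ∧
  (∀ i j u v, (Λ i).Adj u v → (Λ j).Adj u v → i = j) ∧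
  (∀ i ∈ s.Z τ, ∀ z ∈ cell cl a, nb (Λ i) (cell cl b) z = rr τ (n τ z) b i) ∧
  ∀ i ∈ s.Z τ, ∀ u ∈ cell cl b, nb (Λ i) (cell cl a) u ≤ r0 D s * 3

/-- the properties of `rr` -/
def RR (s : Dat) (rr : Bool → ℕ → ℕ → ℕ → ℕ) : Prop :=
  ∀ τ, (s.Y τ).Nonempty → (s.Z τ).Nonempty → ∀ n : ℕ,
    ∑ b ∈ s.Y τ, ∑ β ∈ s.Z τ, rr τ n b β = n ∧
    ∀ b ∈ s.Y τ, ∀ β ∈ s.Z τ, rr τ n b β * ((s.Y τ).card * (s.Z τ).card) ≤
      n + (s.Y τ).card * (s.Z τ).card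

theorem rr_le {D : ℕ} {s : Dat} {rr : Bool → ℕ → ℕ → ℕ → ℕ} (hr : RR s rr)
    {τ : Bool} {m : ℕ} {b β : ℕ} (hb : b ∈ s.Y τ) (hβ : β ∈ s.Z τ)
    (hm : (m : ℝ) ≤ (s.e2 + 18 * s.μ) * D) : rr τ m b β ≤ r0 D s := by
  have h1 := (hr τ ⟨b, hb⟩ ⟨β, hβ⟩ m).2 b hb β hβ
  have hY : 0 < (s.Y τ).card := Finset.card_pos.mpr ⟨b, hb⟩
  have hZ : 0 < (s.Z τ).card := Finset.card_pos.mpr ⟨β, hβ⟩
  have hyz : (0:ℝ) < (s.Y τ).card * (s.Z τ).card := by positivity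
  have h2 : rr τ m b β ≤ rnum D s τ := by
    unfold rnum
    by_contra hc
    push Not at hc
    have h3 : ⌊(s.e2 + 18 * s.μ) * D / ((s.Y τ).card * (s.Z τ).card)⌋₊ < rr τ m b β - 1 := by omega
    have h4 := Nat.lt_of_floor_lt h3
    rw [div_lt_iff₀ hyz] at h4
    have h5 : 1 ≤ rr τ m b β := by omega
    have h6 : (rr τ m b β - 1) * ((s.Y τ).card * (s.Z τ).card) ≤ m := by
      rw [Nat.sub_mul]
      omega
    have h7 : (((rr τ m b β - 1 : ℕ) : ℝ)) * ((s.Y τ).card * (s.Z τ).card) ≤ m := by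
      exact_mod_cast h6
    linarith
  refine le_trans h2 ?_
  unfold r0
  cases τ
  · exact le_max_right _ _
  · exact le_max_left _ _

theorem exists_good {V : Type} [Fintype V] {G : SimpleGraph V} {D p : ℕ} {s : Dat} {cl : V → ℕ}
    (hS : S_SELM) (h : Ctx G D p s cl) {rr : Bool → ℕ → ℕ → ℕ → ℕ} (hr : RR s rr)
    {n : Bool → V → ℕ} (hn : ∀ τ z, cl z ∈ s.R0 → (n τ z : ℝ) ≤ (s.e2 + 18 * s.μ) * D)
    {a b : ℕ} {τ : Bool} (ha : a ∈ s.R0) (hb : b ∈ s.Y τ) :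
    ∃ Λ : ℕ → SimpleGraph V, Good G D s cl rr n a b τ Λ := by
  have hD := D_pos h
  have hmu := mu_pos h.sch
  have hmD := mD_big h
  have hde := delta_small h.sch
  have hd0 := h.sch.dpos
  have hB : (0:ℝ) ≤ s.B := Nat.cast_nonneg _
  have hbR := (h.sch.xY τ b hb).1
  have hab : a ≠ b := fun e => (h.sch.xY τ b hb).2.1 (e ▸ ha)
  have hδ : s.δ ≤ s.μ / 10 ^ 4 := by
    have : 10 ^ 4 * 1 * s.δ ≤ 10 ^ 4 * ((s.B : ℝ) + 2) * s.δ := by
      have : (1:ℝ) ≤ (s.B : ℝ) + 2 := by linarith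
      gcongr
    linarith
  have hδD : s.δ * D ≤ s.μ * D / 10 ^ 4 := by
    calc s.δ * D ≤ s.μ / 10 ^ 4 * D := mul_le_mul_of_nonneg_right hδ hD.le
      _ = s.μ * D / 10 ^ 4 := by ring
  have hmD1 : 10 ^ 6 ≤ s.μ * D := by nlinarith
  have hr0 := r0_bound h ha (Or.inl ha : Rel s a)
  have her := er_small h.sch hD (Or.inl ha : Rel s a)
  have herD : s.er a * D / 20 ≤ s.μ * D / 4000 := by
    have : s.er a * D ≤ s.μ / 200 * D := mul_le_mul_of_nonneg_right her hD.le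
    linarith
  have hd1 : (s.μ * D / 2 : ℝ) ≤ ⌈s.μ * D / 2⌉₊ := Nat.le_ceil _
  have hd2 : ((⌈s.μ * D / 2⌉₊ : ℕ) : ℝ) < s.μ * D / 2 + 1 := Nat.ceil_lt_add_one (by positivity)
  have hsel := hS V G (cell cl a) (cell cl b) (s.Z τ) (fun β z => rr τ (n τ z) b β) (r0 D s)
    ⌈s.μ * D / 2⌉₊ 3 (cell_disj cl hab)
    (by
      have : 0 < s.μ * D / 2 := by linarith
      exact Nat.one_le_iff_ne_zero.mpr (Nat.ceil_pos.mpr this).ne')
    (by
      intro i hi z hz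
      have hz' : cl z = a := mem_cell.mp hz
      exact rr_le hr hb hi (hn τ z (hz' ▸ ha)))
    (by
      intro z _
      have h1 := (abs_le.mp (h.row z b hbR)).1
      have h2 : (((s.Z τ).card * r0 D s : ℕ) : ℝ) ≤ ((s.B : ℝ) + 1) * r0 D s := by
        push_cast
        have : ((s.Z τ).card : ℝ) ≤ s.B := by exact_mod_cast Z_card h.sch ha τ
        have hr : (0:ℝ) ≤ r0 D s := Nat.cast_nonneg _
        exact mul_le_mul_of_nonneg_right (by linarith) hr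
      have h3 : ((⌈s.μ * D / 2⌉₊ + (s.Z τ).card * r0 D s : ℕ) : ℝ) ≤ nb G (cell cl b) z := by
        push_cast at h2 ⊢
        linarith
      exact_mod_cast h3)
    (by
      intro u _
      have h1 := (abs_le.mp (h.row u a (h.sch.R0R ha))).2
      have h3 : ((nb G (cell cl a) u : ℕ) : ℝ) ≤ ((3 * ⌈s.μ * D / 2⌉₊ : ℕ) : ℝ) := by
        push_cast
        linarith
      exact_mod_cast h3)
  obtain ⟨Λ, h1, h2, h3, h4, h5⟩ := hsel
  exact ⟨Λ, h1, h2, h3, h4, h5⟩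

theorem Y_unique {D p : ℕ} {s : Dat} (h : Sch D p s) {τ τ' : Bool} {b : ℕ} (h1 : b ∈ s.Y τ)
    (h2 : b ∈ s.Y τ') : τ = τ' := by
  by_contra hne
  have h3 : τ' = !τ := by
    cases τ <;> cases τ' <;> simp at hne ⊢
  exact (h.xY τ b h1).2.2 (h3 ▸ h2)

theorem Y_R0 {D p : ℕ} {s : Dat} (h : Sch D p s) {τ : Bool} {b : ℕ} (h1 : b ∈ s.Y τ) :
    b ∉ s.R0 := (h.xY τ b h1).2.1

section choice

variable {V : Type} [Fintype V] {G : SimpleGraph V} {D p : ℕ} {s : Dat} {cl : V → ℕ}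
  {rr : Bool → ℕ → ℕ → ℕ → ℕ} {n : Bool → V → ℕ} {Λ : ℕ → ℕ → Bool → ℕ → SimpleGraph V}

/-- `u v` is an edge moved to the block `β` -/
def q (s : Dat) (Λ : ℕ → ℕ → Bool → ℕ → SimpleGraph V) (u v : V) (β : ℕ) : Prop :=
  ∃ a b τ, a ∈ s.R0 ∧ b ∈ s.Y τ ∧ (Λ a b τ β).Adj u v

/-- the moved edges -/
def X (s : Dat) (Λ : ℕ → ℕ → Bool → ℕ → SimpleGraph V) : SimpleGraph V :=
  SimpleGraph.fromRel fun u v => ∃ β, q s Λ u v β

/-- the blocks of the moved edges -/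
noncomputable def bX (s : Dat) (Λ : ℕ → ℕ → Bool → ℕ → SimpleGraph V) (u v : V) : ℕ :=
  sInf {β | q s Λ u v β}

omit [Fintype V] in
theorem q_symm {u v : V} {β : ℕ} (h : q s Λ u v β) : q s Λ v u β := by
  obtain ⟨a, b, τ, ha, hb, hq⟩ := h
  exact ⟨a, b, τ, ha, hb, hq.symm⟩

omit [Fintype V] in
theorem X_adj {u v : V} : (X s Λ).Adj u v ↔ ∃ β, q s Λ u v β := by
  unfold X
  rw [SimpleGraph.fromRel_adj]
  constructor
  · rintro ⟨_, h | ⟨β, h⟩⟩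
    · exact h
    · exact ⟨β, q_symm h⟩
  · rintro ⟨β, h⟩
    refine ⟨?_, Or.inl ⟨β, h⟩⟩
    obtain ⟨a, b, τ, ha, hb, hq⟩ := h
    exact hq.ne

theorem q_spec (hΛ : ∀ a b τ, a ∈ s.R0 → b ∈ s.Y τ → Good G D s cl rr n a b τ (Λ a b τ))
    {u v : V} {β : ℕ} (h : q s Λ u v β) :
    (cl u ∈ s.R0 ∧ ∃ τ, cl v ∈ s.Y τ ∧ β ∈ s.Z τ ∧ (Λ (cl u) (cl v) τ β).Adj u v) ∨
    (cl v ∈ s.R0 ∧ ∃ τ, cl u ∈ s.Y τ ∧ β ∈ s.Z τ ∧ (Λ (cl v) (cl u) τ β).Adj u v) := by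
  obtain ⟨a, b, τ, ha, hb, hq⟩ := h
  obtain ⟨h1, h2⟩ := (hΛ a b τ ha hb).2.1 β u v hq
  rcases h2 with ⟨h3, h4⟩ | ⟨h3, h4⟩
  · rw [mem_cell] at h3 h4
    subst h3
    subst h4
    exact Or.inl ⟨ha, τ, hb, h1, hq⟩
  · rw [mem_cell] at h3 h4
    subst h3
    subst h4
    exact Or.inr ⟨ha, τ, hb, h1, hq⟩

theorem q_unique (h : Sch D p s)
    (hΛ : ∀ a b τ, a ∈ s.R0 → b ∈ s.Y τ → Good G D s cl rr n a b τ (Λ a b τ))
    {u v : V} {β β' : ℕ} (h1 : q s Λ u v β) (h2 : q s Λ u v β') : β = β' := by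
  rcases q_spec hΛ h1 with ⟨a1, τ, a2, a3, a4⟩ | ⟨a1, τ, a2, a3, a4⟩
  · rcases q_spec hΛ h2 with ⟨b1, τ', b2, b3, b4⟩ | ⟨b1, τ', b2, b3, b4⟩
    · have e := Y_unique h a2 b2
      subst e
      exact (hΛ _ _ _ a1 a2).2.2.1 β β' u v a4 b4
    · exact absurd a1 (Y_R0 h b2)
  · rcases q_spec hΛ h2 with ⟨b1, τ', b2, b3, b4⟩ | ⟨b1, τ', b2, b3, b4⟩
    · exact absurd b1 (Y_R0 h a2)
    · have e := Y_unique h a2 b2
      subst e
      exact (hΛ _ _ _ a1 a2).2.2.1 β β' u v a4 b4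

theorem bX_eq (h : Sch D p s)
    (hΛ : ∀ a b τ, a ∈ s.R0 → b ∈ s.Y τ → Good G D s cl rr n a b τ (Λ a b τ))
    {u v : V} {β : ℕ} (h1 : q s Λ u v β) : bX s Λ u v = β := by
  have h2 : bX s Λ u v ∈ {β | q s Λ u v β} := Nat.sInf_mem ⟨β, h1⟩
  exact q_unique h hΛ h2 h1

theorem X_q (h : Sch D p s)
    (hΛ : ∀ a b τ, a ∈ s.R0 → b ∈ s.Y τ → Good G D s cl rr n a b τ (Λ a b τ))
    {u v : V} (h1 : (X s Λ).Adj u v) : q s Λ u v (bX s Λ u v) := by
  obtain ⟨β, hβ⟩ := X_adj.mp h1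
  rw [bX_eq h hΛ hβ]
  exact hβ

omit [Fintype V] in
theorem bX_symm (u v : V) : bX s Λ u v = bX s Λ v u := by
  unfold bX
  congr 1
  ext β
  exact ⟨q_symm, q_symm⟩

/-- the neighbours of a vertex with given cell and block -/
noncomputable def fib (s : Dat) (cl : V → ℕ) (Λ : ℕ → ℕ → Bool → ℕ → SimpleGraph V) (z : V)
    (b β : ℕ) : Finset V :=
  univ.filter fun v => (X s Λ).Adj z v ∧ cl v = b ∧ bX s Λ z v = β

theorem fib_one (h : Sch D p s)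
    (hΛ : ∀ a b τ, a ∈ s.R0 → b ∈ s.Y τ → Good G D s cl rr n a b τ (Λ a b τ))
    {z : V} {τ : Bool} {b β : ℕ} (hz : cl z ∈ s.R0) (hb : b ∈ s.Y τ) (hβ : β ∈ s.Z τ) :
    (fib s cl Λ z b β).card = rr τ (n τ z) b β := by
  rw [← (hΛ (cl z) b τ hz hb).2.2.2.1 β hβ z (mem_cell.mpr rfl)]
  unfold nb fib
  congr 1
  ext v
  rw [mem_filter, mem_filter, mem_cell]
  constructor
  · rintro ⟨_, h1, h2, h3⟩
    have h4 := X_q h hΛ h1
    rw [h3] at h4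
    subst h2
    rcases q_spec hΛ h4 with ⟨b1, τ', b2, b3, b4⟩ | ⟨b1, τ', b2, b3, b4⟩
    · have e := Y_unique h hb b2
      subst e
      exact ⟨rfl, b4⟩
    · exact absurd b1 (Y_R0 h hb)
  · rintro ⟨h1, h2⟩
    have h4 : q s Λ z v β := ⟨cl z, b, τ, hz, hb, h2⟩
    exact ⟨mem_univ _, X_adj.mpr ⟨β, h4⟩, h1, bX_eq h hΛ h4⟩

theorem fib_two (h : Sch D p s)
    (hΛ : ∀ a b τ, a ∈ s.R0 → b ∈ s.Y τ → Good G D s cl rr n a b τ (Λ a b τ))
    {z : V} {τ : Bool} {a β : ℕ} (hz : cl z ∈ s.Y τ) (ha : a ∈ s.R0) (hβ : β ∈ s.Z τ) :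
    (fib s cl Λ z a β).card ≤ r0 D s * 3 := by
  refine le_trans (Finset.card_le_card ?_)
    ((hΛ a (cl z) τ ha hz).2.2.2.2 β hβ z (mem_cell.mpr rfl))
  intro v hv
  unfold fib at hv
  rw [mem_filter] at hv
  obtain ⟨_, h1, h2, h3⟩ := hv
  have h4 := X_q h hΛ h1
  rw [h3] at h4
  subst h2
  rw [mem_filter, mem_cell]
  refine ⟨rfl, ?_⟩
  rcases q_spec hΛ h4 with ⟨b1, τ', b2, b3, b4⟩ | ⟨b1, τ', b2, b3, b4⟩
  · exact absurd b1 (Y_R0 h hz)
  · have e := Y_unique h hz b2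
    subst e
    exact b4

theorem fib_le (h : Sch D p s) (hr : RR s rr)
    (hn : ∀ τ z, cl z ∈ s.R0 → (n τ z : ℝ) ≤ (s.e2 + 18 * s.μ) * D)
    (hΛ : ∀ a b τ, a ∈ s.R0 → b ∈ s.Y τ → Good G D s cl rr n a b τ (Λ a b τ))
    (z : V) (b β : ℕ) : (fib s cl Λ z b β).card ≤ r0 D s * 3 := by
  by_cases h0 : (fib s cl Λ z b β).Nonempty
  · obtain ⟨v, hv⟩ := h0
    have hv' := hv
    unfold fib at hv'
    rw [mem_filter] at hv'
    obtain ⟨_, h1, h2, h3⟩ := hv'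
    have h4 := X_q h hΛ h1
    rw [h3] at h4
    subst h2
    rcases q_spec hΛ h4 with ⟨b1, τ', b2, b3, b4⟩ | ⟨b1, τ', b2, b3, b4⟩
    · rw [fib_one h hΛ b1 b2 b3]
      have := rr_le hr b2 b3 (hn τ' z b1)
      omega
    · exact fib_two h hΛ b2 b1 b3
  · rw [Finset.not_nonempty_iff_eq_empty] at h0
    rw [h0]
    simp

theorem X_rel (h : Sch D p s)
    (hΛ : ∀ a b τ, a ∈ s.R0 → b ∈ s.Y τ → Good G D s cl rr n a b τ (Λ a b τ))
    {u v : V} (h1 : (X s Λ).Adj u v) : Rel s (cl u) ∧ Rel s (cl v) ∧ bX s Λ u v < s.B := by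
  rcases q_spec hΛ (X_q h hΛ h1) with ⟨b1, τ', b2, b3, b4⟩ | ⟨b1, τ', b2, b3, b4⟩
  · exact ⟨Or.inl b1, Rel_Y b2, Z_lt h b1 b3⟩
  · exact ⟨Rel_Y b2, Or.inl b1, Z_lt h b1 b3⟩

theorem count_one (h : Sch D p s) (hr : RR s rr)
    (hΛ : ∀ a b τ, a ∈ s.R0 → b ∈ s.Y τ → Good G D s cl rr n a b τ (Λ a b τ))
    (z : V) (τ : Bool) (hz : cl z ∈ s.R0) :
    (univ.filter (fun v => (X s Λ).Adj z v ∧ cl v ∈ s.Y τ)).card = n τ z := by
  obtain ⟨hY, hZ⟩ := YZ_pos h (Or.inl hz : Rel s (cl z)) τ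
  have h1 : ((univ.filter (fun v => (X s Λ).Adj z v ∧ cl v ∈ s.Y τ) : Finset V) : Set V).MapsTo
      (fun v => (cl v, bX s Λ z v)) ((s.Y τ ×ˢ s.Z τ : Finset (ℕ × ℕ)) : Set (ℕ × ℕ)) := by
    intro v hv
    simp only [coe_filter, mem_univ, true_and, Set.mem_ofPred_eq] at hv
    obtain ⟨h2, h3⟩ := hv
    simp only [coe_product, Set.mem_prod, mem_coe]
    refine ⟨h3, ?_⟩
    rcases q_spec hΛ (X_q h hΛ h2) with ⟨b1, τ', b2, b3, b4⟩ | ⟨b1, τ', b2, b3, b4⟩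
    · have e := Y_unique h h3 b2
      subst e
      exact b3
    · exact absurd hz (Y_R0 h b2)
  rw [Finset.card_eq_sum_card_fiberwise h1, Finset.sum_product]
  rw [← (hr τ hY hZ (n τ z)).1]
  apply Finset.sum_congr rfl
  intro b hb
  apply Finset.sum_congr rfl
  intro β hβ
  rw [← fib_one h hΛ hz hb hβ]
  congr 1
  ext v
  unfold fib
  rw [mem_filter, mem_filter, mem_filter]
  constructor
  · rintro ⟨⟨_, h2, h3⟩, h4⟩
    rw [Prod.mk.injEq] at h4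
    exact ⟨mem_univ _, h2, h4.1, h4.2⟩
  · rintro ⟨_, h2, h3, h4⟩
    subst h3
    exact ⟨⟨mem_univ _, h2, hb⟩, by rw [h4]⟩

theorem count_two (h : Sch D p s) (hr : RR s rr)
    (hn : ∀ τ z, cl z ∈ s.R0 → (n τ z : ℝ) ≤ (s.e2 + 18 * s.μ) * D)
    (hΛ : ∀ a b τ, a ∈ s.R0 → b ∈ s.Y τ → Good G D s cl rr n a b τ (Λ a b τ))
    (z : V) (β : ℕ) :
    (univ.filter (fun v => (X s Λ).Adj z v ∧ bX s Λ z v = β)).card ≤ s.B * (r0 D s * 3) := by
  have h1 : ((univ.filter (fun v => (X s Λ).Adj z v ∧ bX s Λ z v = β) : Finset V) : Set V).MapsTo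
      cl ((range s.B : Finset ℕ) : Set ℕ) := by
    intro v hv
    simp only [coe_filter, mem_univ, true_and, Set.mem_ofPred_eq] at hv
    simp only [coe_range, Set.mem_Iio]
    exact row_lt h (Rel_R h (X_rel h hΛ hv.1).2.1)
  rw [Finset.card_eq_sum_card_fiberwise h1]
  have h2 := Finset.sum_le_card_nsmul (range s.B)
    (fun b => ((univ.filter (fun v => (X s Λ).Adj z v ∧ bX s Λ z v = β)).filter
      (fun v => cl v = b)).card) (r0 D s * 3) (by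
      intro b _
      refine le_trans (Finset.card_le_card ?_) (fib_le h hr hn hΛ z b β)
      intro v hv
      unfold fib
      rw [mem_filter, mem_filter] at hv
      rw [mem_filter]
      exact ⟨mem_univ _, hv.1.2.1, hv.2, hv.1.2.2⟩)
  rw [card_range, smul_eq_mul] at h2
  exact h2

theorem count_three (h : Sch D p s) (hr : RR s rr)
    (hn : ∀ τ z, cl z ∈ s.R0 → (n τ z : ℝ) ≤ (s.e2 + 18 * s.μ) * D)
    (hΛ : ∀ a b τ, a ∈ s.R0 → b ∈ s.Y τ → Good G D s cl rr n a b τ (Λ a b τ))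
    (z : V) (β : ℕ) :
    (univ.filter (fun v => (X s Λ).Adj z v ∧ sm s.B (cl z) (cl v) = β)).card ≤
      s.B * (r0 D s * 3) := by
  have h1 : ((univ.filter (fun v => (X s Λ).Adj z v ∧ sm s.B (cl z) (cl v) = β) : Finset V) :
      Set V).MapsTo (bX s Λ z) ((range s.B : Finset ℕ) : Set ℕ) := by
    intro v hv
    simp only [coe_filter, mem_univ, true_and, Set.mem_ofPred_eq] at hv
    simp only [coe_range, Set.mem_Iio]
    exact (X_rel h hΛ hv.1).2.2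
  rw [Finset.card_eq_sum_card_fiberwise h1]
  have h2 := Finset.sum_le_card_nsmul (range s.B)
    (fun β' => ((univ.filter (fun v => (X s Λ).Adj z v ∧ sm s.B (cl z) (cl v) = β)).filter
      (fun v => bX s Λ z v = β')).card) (r0 D s * 3) (by
      intro β' _
      by_cases h0 : ((univ.filter (fun v => (X s Λ).Adj z v ∧ sm s.B (cl z) (cl v) = β)).filter
        (fun v => bX s Λ z v = β')).Nonempty
      · obtain ⟨v0, hv0⟩ := h0
        rw [mem_filter, mem_filter] at hv0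
        refine le_trans (Finset.card_le_card ?_) (fib_le h hr hn hΛ z (cl v0) β')
        intro v hv
        unfold fib
        rw [mem_filter, mem_filter] at hv
        rw [mem_filter]
        refine ⟨mem_univ _, hv.1.2.1, ?_, hv.2⟩
        have e := hv.1.2.2.trans hv0.1.2.2.symm
        exact sm_inj (row_lt h (Rel_R h (X_rel h hΛ hv.1.2.1).2.1))
          (row_lt h (Rel_R h (X_rel h hΛ hv0.1.2.1).2.1)) e
      · rw [Finset.not_nonempty_iff_eq_empty] at h0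
        simp only [h0, card_empty]
        exact Nat.zero_le _)
  rw [card_range, smul_eq_mul] at h2
  exact h2

end choice

theorem card_zero {V : Type} [Fintype V] (P : V → Prop) [DecidablePred P] (h : ∀ v, ¬ P v) :
    (univ.filter P).card = 0 := by
  rw [Finset.card_eq_zero]
  exact Finset.filter_eq_empty_iff.mpr fun v _ => h v

theorem t_XED (hSELM : S_SELM) (hXDI : S_XDI) : S_XED := by
  intro V _ G D p s cl n h hn
  have hD := D_pos h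
  by_cases hR0 : s.R0.Nonempty
  · obtain ⟨a0, ha0⟩ := hR0
    have hrr : ∀ τ, ∃ rr : ℕ → ℕ → ℕ → ℕ, (s.Y τ).Nonempty → (s.Z τ).Nonempty → ∀ n : ℕ,
        ∑ b ∈ s.Y τ, ∑ β ∈ s.Z τ, rr n b β = n ∧
        ∀ b ∈ s.Y τ, ∀ β ∈ s.Z τ, rr n b β * ((s.Y τ).card * (s.Z τ).card) ≤
          n + (s.Y τ).card * (s.Z τ).card := by
      intro τ
      by_cases hY : (s.Y τ).Nonempty
      · by_cases hZ : (s.Z τ).Nonempty
        · obtain ⟨rr, hrr⟩ := hXDI (s.Y τ) (s.Z τ) hY hZ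
          exact ⟨rr, fun _ _ => hrr⟩
        · exact ⟨fun _ _ _ => 0, fun _ hZ' => absurd hZ' hZ⟩
      · exact ⟨fun _ _ _ => 0, fun hY' => absurd hY' hY⟩
    choose rr hr using hrr
    have hr' : RR s rr := hr
    have hex : ∀ a b τ, ∃ Λ : ℕ → SimpleGraph V, a ∈ s.R0 → b ∈ s.Y τ →
        Good G D s cl rr n a b τ Λ := by
      intro a b τ
      by_cases ha : a ∈ s.R0
      · by_cases hb : b ∈ s.Y τ
        · obtain ⟨Λ, hΛ⟩ := exists_good hSELM h hr' hn ha hb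
          exact ⟨Λ, fun _ _ => hΛ⟩
        · exact ⟨fun _ => ⊥, fun _ hb' => absurd hb' hb⟩
      · exact ⟨fun _ => ⊥, fun ha' => absurd ha' ha⟩
    choose Λ hΛ using hex
    refine ⟨X s Λ, bX s Λ, ?_, ?_, bX_symm, ?_, ?_, ?_⟩
    · intro u v huv
      obtain ⟨β, a, b, τ, ha, hb, hq⟩ := X_adj.mp huv
      exact (hΛ a b τ ha hb).1 β hq
    · intro u v huv
      rcases q_spec hΛ (X_q h.sch hΛ huv) with ⟨b1, τ', b2, _⟩ | ⟨b1, τ', b2, _⟩
      · exact Or.inl ⟨b1, τ', b2⟩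
      · exact Or.inr ⟨⟨τ', b2⟩, b1⟩
    · intro z u τ huv hz hu
      rcases q_spec hΛ (X_q h.sch hΛ huv) with ⟨b1, τ', b2, b3, _⟩ | ⟨b1, τ', b2, _⟩
      · have e := Y_unique h.sch hu b2
        subst e
        exact b3
      · exact absurd hz (Y_R0 h.sch b2)
    · intro z τ hz
      exact count_one h.sch hr' hΛ z τ hz
    · intro z hz β
      have her := h.sch.er0 (cl z) hz
      have herD : 0 ≤ s.er (cl z) * D := mul_nonneg her hD.le
      by_cases hrel : ∃ v, (X s Λ).Adj z v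
      · obtain ⟨v, hv⟩ := hrel
        have hR := (X_rel h.sch hΛ hv).1
        have h1 := r0_bound h ha0 hR
        have h2 := count_two h.sch hr' hn hΛ z β
        have h3 := count_three h.sch hr' hn hΛ z β
        have h2' : ((univ.filter (fun v => (X s Λ).Adj z v ∧ bX s Λ z v = β)).card : ℝ) ≤
            s.B * (r0 D s * 3) := by exact_mod_cast h2
        have h3' : ((univ.filter (fun v => (X s Λ).Adj z v ∧
            sm s.B (cl z) (cl v) = β)).card : ℝ) ≤ s.B * (r0 D s * 3) := by exact_mod_cast h3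
        have h4 : (0:ℝ) ≤ r0 D s := Nat.cast_nonneg _
        nlinarith
      · push Not at hrel
        have e1 : (univ.filter (fun v => (X s Λ).Adj z v ∧ bX s Λ z v = β)) = ∅ :=
          Finset.filter_eq_empty_iff.mpr fun v _ hv => hrel v hv.1
        have e2 : (univ.filter (fun v => (X s Λ).Adj z v ∧ sm s.B (cl z) (cl v) = β)) = ∅ :=
          Finset.filter_eq_empty_iff.mpr fun v _ hv => hrel v hv.1
        rw [e1, e2, card_empty, Nat.cast_zero, add_zero]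
        exact herD
  · rw [Finset.not_nonempty_iff_eq_empty] at hR0
    obtain ⟨X0, hX0⟩ : ∃ X0 : SimpleGraph V, ∀ u v, ¬ X0.Adj u v := ⟨⊥, by simp⟩
    refine ⟨X0, fun _ _ => 0, ?_, ?_, fun _ _ => rfl, ?_, ?_, ?_⟩
    · intro u v huv
      exact absurd huv (hX0 u v)
    · intro u v huv
      exact absurd huv (hX0 u v)
    · intro z u τ huv
      exact absurd huv (hX0 z u)
    · intro z τ hz
      rw [hR0] at hz
      simp at hz
    · intro z hz β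
      have herD : 0 ≤ s.er (cl z) * D := mul_nonneg (h.sch.er0 (cl z) hz) hD.le
      rw [card_zero _ (fun v hv => hX0 z v hv.1), card_zero _ (fun v hv => hX0 z v hv.1),
        Nat.cast_zero, add_zero]
      exact herD

end Pool.Agent.H31.HX
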