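import Pool.Agent.H31.HX.Xed

/-!
# Project HX: part XGR, balance after the move
-/

set_option autoImplicit false
open Classical Finset

namespace Pool.Agent.H31.HX

open Pool.Agent.H21.HV (nb Prp TotLab)
open Pool.Agent.H39.HW (sm Av ln blk lab Reg)
open Pool.Agent.H65.HW (cell)
open Pool.Agent.H65.HX

section move

variable {V : Type} [Fintype V] {G : SimpleGraph V} {D p : ℕ} {s : Dat} {cl : V → ℕ}
  {X : SimpleGraph V} {bX : V → V → ℕ}

/-- edges in the new block -/
noncomputable def nw (X : SimpleGraph V) (bX : V → V → ℕ) (z : V) (β : ℕ) : Finset V :=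
  univ.filter fun v => X.Adj z v ∧ bX z v = β

/-- edges in the old block -/
noncomputable def od (s : Dat) (cl : V → ℕ) (X : SimpleGraph V) (z : V) (β : ℕ) : Finset V :=
  univ.filter fun v => X.Adj z v ∧ sm s.B (cl z) (cl v) = β

/-- the edges which are not moved -/
noncomputable def st0 (G : SimpleGraph V) (s : Dat) (cl : V → ℕ) (X : SimpleGraph V) (z : V)
    (β : ℕ) : Finset V :=
  univ.filter fun v => (G.Adj z v ∧ cl v ∈ s.R ∧ cl v ≠ cl z) ∧ ¬ X.Adj z v ∧
    sm s.B (cl z) (cl v) = β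

omit [Fintype V] in
theorem X_row (h : Sch D p s) (hle : X ≤ G)
    (hsup : ∀ u v, X.Adj u v →
        (cl u ∈ s.R0 ∧ ∃ τ, cl v ∈ s.Y τ) ∨ ((∃ τ, cl u ∈ s.Y τ) ∧ cl v ∈ s.R0))
    {z v : V} (hv : X.Adj z v) : G.Adj z v ∧ cl v ∈ s.R ∧ cl v ≠ cl z := by
  refine ⟨hle hv, ?_⟩
  rcases hsup z v hv with ⟨h1, τ, h2⟩ | ⟨⟨τ, h2⟩, h1⟩
  · exact ⟨(h.xY τ _ h2).1, fun e => Y_R0 h h2 (e ▸ h1)⟩
  · exact ⟨h.R0R h1, fun e => Y_R0 h h2 (e ▸ h1)⟩

theorem rz_new (h : Sch D p s) (hle : X ≤ G)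
    (hsup : ∀ u v, X.Adj u v →
        (cl u ∈ s.R0 ∧ ∃ τ, cl v ∈ s.Y τ) ∨ ((∃ τ, cl u ∈ s.Y τ) ∧ cl v ∈ s.R0))
    (z : V) (β : ℕ) :
    rz G s cl X bX z β = (st0 G s cl X z β).card + (nw X bX z β).card := by
  have hd : Disjoint (st0 G s cl X z β) (nw X bX z β) := by
    rw [Finset.disjoint_left]
    intro v h1 h2
    unfold st0 at h1
    unfold nw at h2
    rw [mem_filter] at h1 h2
    exact h1.2.2.1 h2.2.1
  rw [← Finset.card_union_of_disjoint hd]
  unfold rz
  congr 1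
  ext v
  unfold st0 nw be
  rw [mem_union, mem_filter, mem_filter, mem_filter]
  constructor
  · rintro ⟨_, h1, h2, h3, h4⟩
    by_cases hX : X.Adj z v
    · rw [if_pos hX] at h4
      exact Or.inr ⟨mem_univ _, hX, h4⟩
    · rw [if_neg hX] at h4
      exact Or.inl ⟨mem_univ _, ⟨h1, h2, h3⟩, hX, h4⟩
  · rintro (⟨_, ⟨h1, h2, h3⟩, hX, h4⟩ | ⟨_, hX, h4⟩)
    · exact ⟨mem_univ _, h1, h2, h3, by rw [if_neg hX]; exact h4⟩
    · obtain ⟨h1, h2, h3⟩ := X_row h hle hsup hX
      exact ⟨mem_univ _, h1, h2, h3, by rw [if_pos hX]; exact h4⟩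

theorem rz_old (h : Sch D p s) (hle : X ≤ G)
    (hsup : ∀ u v, X.Adj u v →
        (cl u ∈ s.R0 ∧ ∃ τ, cl v ∈ s.Y τ) ∨ ((∃ τ, cl u ∈ s.Y τ) ∧ cl v ∈ s.R0))
    (z : V) (β : ℕ) :
    rz G s cl ⊥ (fun _ _ => 0) z β = (st0 G s cl X z β).card + (od s cl X z β).card := by
  have hd : Disjoint (st0 G s cl X z β) (od s cl X z β) := by
    rw [Finset.disjoint_left]
    intro v h1 h2
    unfold st0 at h1
    unfold od at h2
    rw [mem_filter] at h1 h2
    exact h1.2.2.1 h2.2.1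
  rw [← Finset.card_union_of_disjoint hd]
  unfold rz
  congr 1
  ext v
  unfold st0 od be
  rw [mem_union, mem_filter, mem_filter, mem_filter]
  have hb : ¬ (⊥ : SimpleGraph V).Adj z v := by simp
  rw [if_neg hb]
  constructor
  · rintro ⟨_, h1, h2, h3, h4⟩
    by_cases hX : X.Adj z v
    · exact Or.inr ⟨mem_univ _, hX, h4⟩
    · exact Or.inl ⟨mem_univ _, ⟨h1, h2, h3⟩, hX, h4⟩
  · rintro (⟨_, ⟨h1, h2, h3⟩, hX, h4⟩ | ⟨_, hX, h4⟩)
    · exact ⟨mem_univ _, h1, h2, h3, h4⟩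
    · obtain ⟨h1, h2, h3⟩ := X_row h hle hsup hX
      exact ⟨mem_univ _, h1, h2, h3, h4⟩

/-- the demand is large -/
theorem dem_ge (h : Sch D p s) (hD : (0:ℝ) < D) {a β : ℕ} (ha : a ∈ s.R) (hβ : β ∈ s.cls p a) :
    s.δ + s.er a ≤ s.dem D a β := by
  have h1 := h.sur2 a ha β hβ
  have h2 : s.lo D a β = s.ω * s.kt a β - s.dem D a β := rfl
  have h3 := h.er1 a ha β hβ
  have h4 := h.er0 a ha
  have h7 : 0 ≤ s.ω * s.kt a β := mul_nonneg (omega_pos h).le (Nat.cast_nonneg _)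
  have h8 : s.ρ2 * (s.ω * s.kt a β) ≤ 1 / 16 * (s.ω * s.kt a β) :=
    mul_le_mul_of_nonneg_right h.rho2 h7
  have h9 : 2 * s.δ ≤ s.dem D a β := by
    unfold Dat.dem
    have h10 := h.lnl β (mem_cls.mp hβ).1
    have h11 : s.μ + 2 * s.δ ≤ (ln s.st β : ℝ) / D := by
      rw [le_div_iff₀ hD]
      linarith
    have h6 := mu_pos h
    split_ifs <;> linarith
  linarith

end move

theorem sum_fib {V : Type} [Fintype V] (P : V → Prop) (f : V → ℕ) (S : Finset ℕ) :
    ∑ β ∈ S, (univ.filter (fun v => P v ∧ f v = β)).card =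
      (univ.filter (fun v => P v ∧ f v ∈ S)).card := by
  have h1 : ((univ.filter (fun v => P v ∧ f v ∈ S) : Finset V) : Set V).MapsTo f
      (S : Set ℕ) := by
    intro v hv
    simp only [coe_filter, mem_univ, true_and, Set.mem_ofPred_eq] at hv
    exact hv.2
  rw [Finset.card_eq_sum_card_fiberwise h1]
  apply Finset.sum_congr rfl
  intro β hβ
  congr 1
  ext v
  rw [mem_filter, mem_filter, mem_filter]
  constructor
  · rintro ⟨_, h2, h3⟩
    exact ⟨⟨mem_univ _, h2, h3 ▸ hβ⟩, h3⟩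
  · rintro ⟨⟨_, h2, _⟩, h3⟩
    exact ⟨mem_univ _, h2, h3⟩

theorem t_XGR (hXED : S_XED) (hXIM : S_XIM) (hRZ0 : S_RZ0) : S_XGR := by
  intro V _ G D p s cl x f T c hC hW hL hT
  have hS := hC.sch
  have hD := D_pos hC
  have hn : ∀ (τ : Bool) (z : V), cl z ∈ s.R0 →
      (((if τ then -imb G T p s cl z else imb G T p s cl z).toNat : ℕ) : ℝ) ≤
        (s.e2 + 18 * s.μ) * D := by
    intro τ z hz
    have h1 := hXIM V G D p s cl x f T c hC hW hL hT z hz
    have h2 : (((if τ then -imb G T p s cl z else imb G T p s cl z).toNat : ℕ) : ℤ) ≤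
        |imb G T p s cl z| := by
      rw [Int.ofNat_toNat]
      refine max_le ?_ (abs_nonneg _)
      split_ifs
      · exact neg_le_abs _
      · exact le_abs_self _
    have h3 : (((if τ then -imb G T p s cl z else imb G T p s cl z).toNat : ℕ) : ℝ) ≤
        |(imb G T p s cl z : ℝ)| := by
      exact_mod_cast h2
    exact le_trans h3 h1
  obtain ⟨X, bX, hle, hsup, hsym, hblo, hcnt, htol⟩ := hXED V G D p s cl
    (fun τ z => (if τ then -imb G T p s cl z else imb G T p s cl z).toNat) hC hn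
  have hkey : ∀ z β, rz G s cl X bX z β + (od s cl X z β).card =
      rz G s cl ⊥ (fun _ _ => 0) z β + (nw X bX z β).card := by
    intro z β
    rw [rz_new hS hle hsup, rz_old hS hle hsup]
    omega
  have htol' : ∀ z, cl z ∈ s.R → ∀ β ∈ s.cls p (cl z), rz G s cl X bX z β ≤ ln s.st β ∧
      |(pz G s cl X bX z β : ℝ) - s.dem D (cl z) β * D| ≤ (s.δ + s.er (cl z)) * D := by
    intro z hz β hβ
    have h1 := hRZ0 V G D p s cl hC z hz β (mem_cls.mp hβ).1
    have h2 := abs_le.mp h1.2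
    have h3 : ((nw X bX z β).card : ℝ) + ((od s cl X z β).card : ℝ) ≤ s.er (cl z) * D :=
      htol z hz β
    have h4 : ((rz G s cl X bX z β : ℕ) : ℝ) + (od s cl X z β).card =
        (rz G s cl ⊥ (fun _ _ => 0) z β : ℕ) + (nw X bX z β).card := by
      exact_mod_cast hkey z β
    have h5 : (0:ℝ) ≤ (nw X bX z β).card := Nat.cast_nonneg _
    have h6 : (0:ℝ) ≤ (od s cl X z β).card := Nat.cast_nonneg _
    have h7 := dem_ge hS hD hz hβ
    have h8 : (s.δ + s.er (cl z)) * D ≤ s.dem D (cl z) β * D :=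
      mul_le_mul_of_nonneg_right h7 hD.le
    have h9 : ((rz G s cl X bX z β : ℕ) : ℝ) ≤ ln s.st β := by linarith
    have h10 : rz G s cl X bX z β ≤ ln s.st β := by exact_mod_cast h9
    refine ⟨h10, ?_⟩
    have h11 : (pz G s cl X bX z β : ℝ) = ln s.st β - rz G s cl X bX z β := by
      unfold pz
      exact Nat.cast_sub h10
    rw [h11, abs_le]
    constructor <;> linarith
  refine ⟨X, bX, hle, hsup, hsym, hblo, htol', ?_⟩
  intro z hz
  have hzR := hS.R0R hz
  set low := (s.cls p (cl z)).filter (fun β => decide (cl z < β) = false) with hlow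
  have e1 : ∑ β ∈ low, (nw X bX z β).card =
      (univ.filter (fun v => X.Adj z v ∧ cl v ∈ s.Y false)).card := by
    have := sum_fib (fun v => X.Adj z v) (bX z) low
    refine this.trans ?_
    congr 1
    ext v
    simp only [mem_filter, mem_univ, true_and]
    constructor
    · rintro ⟨h1, h2⟩
      refine ⟨h1, ?_⟩
      rcases hsup z v h1 with ⟨_, τ, h3⟩ | ⟨⟨τ, h3⟩, _⟩
      · cases τ
        · exact h3
        · exfalso
          have h4 := (hS.xc1 true _ (hblo z v true h1 hz h3) (cl z) hz).2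
          rw [hlow, mem_filter] at h2
          rw [h2.2] at h4
          exact absurd h4 (by decide)
      · exact absurd hz (Y_R0 hS h3)
    · rintro ⟨h1, h2⟩
      refine ⟨h1, ?_⟩
      have h4 := hS.xc1 false _ (hblo z v false h1 hz h2) (cl z) hz
      rw [hlow, mem_filter]
      exact h4
  have e2 : ∑ β ∈ low, (od s cl X z β).card =
      (univ.filter (fun v => X.Adj z v ∧ cl v ∈ s.Y true)).card := by
    have := sum_fib (fun v => X.Adj z v) (fun v => sm s.B (cl z) (cl v)) low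
    refine this.trans ?_
    congr 1
    ext v
    simp only [mem_filter, mem_univ, true_and]
    constructor
    · rintro ⟨h1, h2⟩
      refine ⟨h1, ?_⟩
      rcases hsup z v h1 with ⟨_, τ, h3⟩ | ⟨⟨τ, h3⟩, _⟩
      · cases τ
        · exfalso
          have h4 := hS.xs false (cl z) hz (cl v) h3
          rw [hlow, mem_filter] at h2
          rw [h2.2] at h4
          exact absurd h4 (by decide)
        · exact h3
      · exact absurd hz (Y_R0 hS h3)
    · rintro ⟨h1, h2⟩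
      refine ⟨h1, ?_⟩
      have h4 := hS.xs true (cl z) hz (cl v) h2
      have h5 : cl z ≠ cl v := fun e => Y_R0 hS h2 (e ▸ hz)
      rw [hlow, mem_filter]
      exact ⟨sm_mem_cls hS hzR (hS.xY true _ h2).1 h5, h4⟩
  rw [hcnt z false hz] at e1
  rw [hcnt z true hz] at e2
  have e3 : (((∑ β ∈ low, (nw X bX z β).card : ℕ)) : ℤ) - ((∑ β ∈ low, (od s cl X z β).card : ℕ) : ℤ)
      = imb G T p s cl z := by
    rw [e1, e2]
    simp only [if_true]
    have : ((if false = true then -imb G T p s cl z else imb G T p s cl z)) =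
      imb G T p s cl z := by simp
    rw [this]
    omega
  have e4 : ∀ β ∈ low, ((pz G s cl X bX z β : ℕ) : ℤ) =
      ((ln s.st β : ℤ) - rz G s cl ⊥ (fun _ _ => 0) z β) -
        ((nw X bX z β).card : ℤ) + ((od s cl X z β).card : ℤ) := by
    intro β hβ
    have h1 := (htol' z hzR β (mem_filter.mp hβ).1).1
    have h2 := hkey z β
    unfold pz
    rw [Nat.cast_sub h1]
    omega
  have e5 : ((∑ β ∈ low, pz G s cl X bX z β : ℕ) : ℤ) =
      ∑ β ∈ low, ((ln s.st β : ℤ) - rz G s cl ⊥ (fun _ _ => 0) z β) -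
        ((∑ β ∈ low, (nw X bX z β).card : ℕ) : ℤ) + ((∑ β ∈ low, (od s cl X z β).card : ℕ) : ℤ) := by
    push_cast
    rw [Finset.sum_congr rfl e4, Finset.sum_add_distrib, Finset.sum_sub_distrib]
  have e6 : imb G T p s cl z = ∑ β ∈ low, ((ln s.st β : ℤ) - rz G s cl ⊥ (fun _ _ => 0) z β) +
    ∑ P ∈ (range s.H).filter (fun P => s.ty P = false), ((lab s.st (s.S P (cl z))).card : ℤ) -
    ∑ y ∈ (range s.m).filter (fun y => s.ty (s.part y) = false), (Nz G T s cl z y : ℤ) := rfl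
  have e7 : ((∑ β ∈ low, pz G s cl X bX z β +
      ∑ P ∈ (range s.H).filter (fun P => s.ty P = false), (lab s.st (s.S P (cl z))).card : ℕ) : ℤ) =
    ((∑ y ∈ (range s.m).filter (fun y => s.ty (s.part y) = false), Nz G T s cl z y : ℕ) : ℤ) := by
    rw [Nat.cast_add, e5]
    push_cast
    push_cast at e3
    linarith
  exact_mod_cast e7

end Pool.Agent.H31.HX
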